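import Pool.Agent.Mob.Stmts

/-!
# Squad T2: module LRG
-/

set_option autoImplicit false

open MeasureTheory ProbabilityTheory Function Filter Topology

open scoped ENNReal BigOperators

noncomputable section

namespace Pool.Agent.Mob.H32

open Pool.Agent.Anderson Pool.Agent.Loc Pool.Agent.Mob

variable {d : ℕ}

/-- `|g| ^ (1/8) ≤ t ^ (1/8) + t ^ (-3/8) √|g|` -/
theorem p8_le_sqrt (g : ℝ) {t : ℝ} (ht : 0 < t) :
    p8 g ≤ ENNReal.ofReal (t ^ (1 / 8 : ℝ)) +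
      ENNReal.ofReal (t ^ (-(3 / 8) : ℝ)) * ENNReal.ofReal (√|g|) := by
  unfold p8
  rw [← ENNReal.ofReal_mul (by positivity), ← ENNReal.ofReal_add (by positivity) (by positivity)]
  apply ENNReal.ofReal_le_ofReal
  rcases le_total |g| t with h | h
  · have h1 := Real.rpow_le_rpow (abs_nonneg g) h (by norm_num : (0 : ℝ) ≤ 1 / 8)
    have h2 : 0 ≤ t ^ (-(3 / 8) : ℝ) * √|g| := by positivity
    linarith
  · have hg : 0 < |g| := ht.trans_le h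
    have h1 : |g| ^ (1 / 8 : ℝ) = |g| ^ (-(3 / 8) : ℝ) * √|g| := by
      rw [Real.sqrt_eq_rpow, ← Real.rpow_add hg]
      norm_num
    have h2 : |g| ^ (-(3 / 8) : ℝ) ≤ t ^ (-(3 / 8) : ℝ) :=
      Real.rpow_le_rpow_of_nonpos ht h (by norm_num)
    have h3 : |g| ^ (-(3 / 8) : ℝ) * √|g| ≤ t ^ (-(3 / 8) : ℝ) * √|g| :=
      mul_le_mul_of_nonneg_right h2 (Real.sqrt_nonneg _)
    have h4 : 0 ≤ t ^ (1 / 8 : ℝ) := by positivity
    linarith

/-- the a priori bound for the fractional moment -/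
theorem lintegral_pg_le {σ : ℝ} (hσ : σ ≠ 0) (Λ : Finset (Site d)) (E : ℝ) (x y : Site d) :
    ∫⁻ V, pg Λ E x y V ∂(PL (gl σ) Λ) ≤ ENNReal.ofReal (3 * (6 / |σ|) ^ (1 / 8 : ℝ)) := by
  have hσ' : 0 < |σ| := abs_pos.2 hσ
  have ht : 0 < 6 / |σ| := by positivity
  have h1 : ∫⁻ V, pg Λ E x y V ∂(PL (gl σ) Λ) ≤
      ∫⁻ V, (ENNReal.ofReal ((6 / |σ|) ^ (1 / 8 : ℝ)) +
        ENNReal.ofReal ((6 / |σ|) ^ (-(3 / 8) : ℝ)) * ENNReal.ofReal (√|gr V Λ E x y|))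
          ∂(PL (gl σ) Λ) := lintegral_mono fun V => p8_le_sqrt _ ht
  refine h1.trans ?_
  have hm : Measurable fun V : Site d → ℝ => ENNReal.ofReal (√|gr V Λ E x y|) :=
    (measurable_gr Λ E x y).abs.sqrt.ennreal_ofReal
  rw [lintegral_add_left measurable_const, lintegral_const, measure_univ, mul_one,
    lintegral_const_mul _ hm]
  have h2 := PL_sqrt (bddDens_gl hσ) Λ E x y
  have h3 : ENNReal.ofReal ((6 / |σ|) ^ (-(3 / 8) : ℝ)) *
      ∫⁻ V, ENNReal.ofReal (√|gr V Λ E x y|) ∂(PL (gl σ) Λ) ≤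
      ENNReal.ofReal ((6 / |σ|) ^ (-(3 / 8) : ℝ)) * ENNReal.ofReal (2 * √(6 * (1 / |σ|))) :=
    mul_le_mul_right h2 _
  refine (add_le_add_right h3 _).trans ?_
  rw [← ENNReal.ofReal_mul (by positivity), ← ENNReal.ofReal_add (by positivity) (by positivity)]
  apply ENNReal.ofReal_le_ofReal
  have h4 : (6 / |σ|) ^ (-(3 / 8) : ℝ) * (2 * √(6 * (1 / |σ|))) = 2 * (6 / |σ|) ^ (1 / 8 : ℝ) := by
    have h5 : 6 * (1 / |σ|) = 6 / |σ| := by ring
    rw [h5, Real.sqrt_eq_rpow, mul_left_comm, ← Real.rpow_add ht]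
    norm_num
  rw [h4]
  apply le_of_eq
  ring

/-- LRG -/
theorem lrg : LrgStmt := by
  intro d hd C₀ hC
  have hlim : Tendsto (fun s : ℝ => C₀ * (1 + 1 / s) * (2 * ((0 : ℕ) : ℝ) + 5) ^ (6 * d) *
      (3 * (6 / s) ^ (1 / 8 : ℝ))) atTop (𝓝 0) := by
    have h1 : Tendsto (fun s : ℝ => (6 / s) ^ (1 / 8 : ℝ)) atTop (𝓝 0) := by
      have h2 : Tendsto (fun s : ℝ => 6 / s) atTop (𝓝 0) := tendsto_const_nhds.div_atTop tendsto_id
      have h3 := h2.rpow_const (p := (1 / 8 : ℝ)) (Or.inr (by norm_num))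
      rwa [Real.zero_rpow (by norm_num)] at h3
    have h2 : Tendsto (fun s : ℝ => C₀ * (1 + 1 / s) * (2 * ((0 : ℕ) : ℝ) + 5) ^ (6 * d)) atTop
        (𝓝 (C₀ * (1 + 0) * (2 * ((0 : ℕ) : ℝ) + 5) ^ (6 * d))) := by
      refine Tendsto.mul_const _ (Tendsto.const_mul _ (Tendsto.const_add _ ?_))
      exact tendsto_const_nhds.div_atTop tendsto_id
    have h3 := h2.mul (h1.const_mul 3)
    rwa [mul_zero, mul_zero] at h3
  have hev := (hlim.eventually (ge_mem_nhds (Real.exp_pos (-1)))).and (eventually_gt_atTop 0)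
  obtain ⟨σ₁, hσ₁⟩ := eventually_atTop.1 hev
  have hpos := (hσ₁ σ₁ le_rfl).2
  refine ⟨σ₁, hpos, ?_⟩
  intro σ hσ E
  have hσ0 : σ ≠ 0 := by
    intro h
    rw [h, abs_zero] at hσ
    linarith
  refine ⟨3 * (6 / |σ|) ^ (1 / 8 : ℝ), by positivity, (hσ₁ |σ| hσ).1, ?_⟩
  intro x u _
  exact lintegral_pg_le hσ0 _ E x u

end Pool.Agent.Mob.H32
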