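import Pool.Agent.Mob.Stmts

/-!
# Squad T2: module NRM
-/

set_option autoImplicit false

open MeasureTheory ProbabilityTheory Function

open scoped ENNReal BigOperators ComplexConjugate InnerProductSpace

noncomputable section

namespace Pool.Agent.Mob.H32

open Pool.Agent.Anderson Pool.Agent.Loc Pool.Agent.Mob

variable {d : ℕ}

/-- the vector `(H_Λ - E) f` -/
theorem HC_mulVec (V : Site d → ℝ) (Λ : Finset (Site d)) {f : Site d → ℂ}
    (hf : ∀ x, x ∉ Λ → f x = 0) (x : Λ) :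
    (HC V Λ).mulVec (fun y : Λ => f y) x = lap f x + (V x : ℂ) * f x := by
  have h0 : lap f x = ∑ y ∈ Λ, (hop (x : Site d) y : ℂ) * f y := by
    rw [← lap_indicator]
    congr 1
    funext y
    by_cases hy : y ∈ Λ
    · rw [if_pos hy]
    · rw [if_neg hy, hf y hy]
  rw [h0, ← Finset.sum_coe_sort Λ (fun y => (hop (x : Site d) y : ℂ) * f y)]
  simp only [Matrix.mulVec, dotProduct, HC, Matrix.map_apply, HM, Matrix.of_apply]
  have h3 : ∀ y : Λ, ((hop x (y : Site d) + if x = y then V x else 0 : ℝ) : ℂ) *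
      f y = (hop x (y : Site d) : ℂ) * f y + (if x = y then (V x : ℂ) * f x else 0) := by
    intro y
    by_cases h : x = y
    · subst h; simp; ring
    · simp [h]
  rw [Finset.sum_congr rfl fun y _ => h3 y, Finset.sum_add_distrib]
  simp

/-- an eigenvalue of `H_Λ` is a zero of the determinant -/
theorem det_eig (V : Site d → ℝ) (Λ : Finset (Site d)) (j : Λ) :
    (RM V Λ ((HC_herm V Λ).eigenvalues j)).det = 0 := by
  by_contra hdet
  set e := (HC_herm V Λ).eigenvalues j with he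
  have h1 : (RM V Λ e).map (fun a => (a : ℂ)) = (e : ℂ) • (1 : Matrix Λ Λ ℂ) - HC V Λ := by
    ext x y
    simp only [RM, HC, Matrix.map_apply, Matrix.sub_apply, Matrix.smul_apply, smul_eq_mul,
      Matrix.one_apply]
    split_ifs <;> simp
  have h2 : ((RM V Λ e).map (fun a => (a : ℂ))).det ≠ 0 := by
    have h3 : ((RM V Λ e).map (fun a => (a : ℂ))).det = ((RM V Λ e).det : ℂ) :=
      (RingHom.map_det Complex.ofRealHom (RM V Λ e)).symm
    rw [h3]
    exact_mod_cast hdet
  have h4 : ((RM V Λ e).map (fun a => (a : ℂ))).mulVec ((HC_herm V Λ).eigenvectorBasis j) = 0 := by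
    rw [h1, Matrix.sub_mulVec, (HC_herm V Λ).mulVec_eigenvectorBasis j, Matrix.smul_mulVec,
      Matrix.one_mulVec]
    ext x
    simp [← he]
  have h5 := Matrix.eq_zero_of_mulVec_eq_zero h2 h4
  have h6 := (HC_herm V Λ).eigenvectorBasis.norm_eq_one j
  have h7 : (HC_herm V Λ).eigenvectorBasis j = 0 := by
    ext x
    exact congrFun h5 x
  rw [h7, norm_zero] at h6
  exact zero_ne_one h6

/-- NRM -/
theorem nrm : NrmStmt := by
  intro d V Λ E r hr hE f hf
  set b := (HC_herm V Λ).eigenvectorBasis with hb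
  set ev := (HC_herm V Λ).eigenvalues with hev
  have hlow : ∀ j, r ≤ |ev j - E| := by
    intro j
    by_contra hcon
    push Not at hcon
    exact hE (ev j) hcon.le (det_eig V Λ j)
  set v : EuclideanSpace ℂ Λ := WithLp.toLp 2 fun x : Λ => f x with hv
  set g : EuclideanSpace ℂ Λ := WithLp.toLp 2 fun x : Λ =>
    lap f x + (V x : ℂ) * f x - (E : ℂ) * f x with hg
  have hinner : ∀ j (w : Λ → ℂ), ⟪b j, (WithLp.toLp 2 w : EuclideanSpace ℂ Λ)⟫_ℂ =
      dotProduct (star (fun x => b j x)) w := by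
    intro j w
    rw [PiLp.inner_apply, dotProduct]
    apply Finset.sum_congr rfl
    intro x _
    rw [RCLike.inner_apply, mul_comm]
    rfl
  have hH : ∀ j, ⟪b j, g⟫_ℂ = ((ev j - E : ℝ) : ℂ) * ⟪b j, v⟫_ℂ := by
    intro j
    have h1 : (fun x : Λ => lap f x + (V x : ℂ) * f x - (E : ℂ) * f x) =
        (HC V Λ).mulVec (fun y : Λ => f y) - (E : ℂ) • (fun y : Λ => f y) := by
      funext x
      rw [Pi.sub_apply, HC_mulVec V Λ hf x]
      rfl
    have h2 : Matrix.vecMul (star (fun x => b j x)) (HC V Λ) =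
        (ev j : ℂ) • star (fun x => b j x) := by
      have h3 := congrArg star ((HC_herm V Λ).mulVec_eigenvectorBasis j)
      rw [Matrix.star_mulVec, (HC_herm V Λ).eq] at h3
      rw [hb, hev]
      refine Eq.trans h3 ?_
      ext x
      simp
    rw [hg, hv, hinner, hinner, h1, dotProduct_sub, Matrix.dotProduct_mulVec, h2, smul_dotProduct,
      dotProduct_smul]
    push_cast
    rw [smul_eq_mul, smul_eq_mul]
    ring
  have e1 := b.sum_sq_norm_inner_right v
  have e2 := b.sum_sq_norm_inner_right g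
  rw [EuclideanSpace.norm_sq_eq] at e1 e2
  have e3 : ∑ x ∈ Λ, ‖f x‖ ^ 2 = ∑ j, ‖⟪b j, v⟫_ℂ‖ ^ 2 := by
    rw [e1, ← Finset.sum_coe_sort Λ (fun x => ‖f x‖ ^ 2)]
  have e4 : ∑ x ∈ Λ, ‖lap f x + (V x : ℂ) * f x - (E : ℂ) * f x‖ ^ 2 =
      ∑ j, ‖⟪b j, g⟫_ℂ‖ ^ 2 := by
    rw [e2, ← Finset.sum_coe_sort Λ
      (fun x => ‖lap f x + (V x : ℂ) * f x - (E : ℂ) * f x‖ ^ 2)]
  rw [e3, e4, Finset.mul_sum]
  apply Finset.sum_le_sum
  intro j _
  rw [hH j, norm_mul, mul_pow, Complex.norm_real, Real.norm_eq_abs]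
  have := hlow j
  gcongr

end Pool.Agent.Mob.H32
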