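import Pool.Agent.Mob.Stmts

/-!
# Squad T2: module PTW
-/

set_option autoImplicit false

open MeasureTheory ProbabilityTheory Function

open scoped ENNReal BigOperators

noncomputable section

namespace Pool.Agent.Mob.H32

open Pool.Agent.Anderson Pool.Agent.Loc Pool.Agent.Helper54.Bal Pool.Agent.Mob

variable {d : ℕ}

theorem coord_sub_le (V : Site d → ℝ) (x u : Site d) {η : ℝ} (hη : 0 < η) (E F : ℝ) :
    ‖G V (zz η E) (del x) u‖ ≤ ‖G V (zz η F) (del x) u‖ + |F - E| / η ^ 2 := by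
  have hz : ∀ E : ℝ, (zz η E).im = η := fun E => by simp [zz]
  have h1 : ‖G V (zz η E) - G V (zz η F)‖ ≤ ‖zz η E - zz η F‖ * (|(zz η E).im|⁻¹ *
      |(zz η F).im|⁻¹) := (isRes_G V).sub_norm_le (by rw [hz]; exact hη.ne') (by
      rw [hz]; exact hη.ne')
  have h2 : ‖zz η E - zz η F‖ = |F - E| := by
    have : zz η E - zz η F = ((E - F : ℝ) : ℂ) := by
      unfold zz
      push_cast
      ring
    rw [this, Complex.norm_real, Real.norm_eq_abs, abs_sub_comm]
  rw [h2, hz, hz, abs_of_pos hη] at h1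
  have h3 : ‖(G V (zz η E) - G V (zz η F)) (del x) u‖ ≤ |F - E| / η ^ 2 := by
    refine (norm_coord_le _ _).trans ?_
    refine (ContinuousLinearMap.le_opNorm _ _).trans ?_
    rw [norm_del, mul_one]
    refine h1.trans (le_of_eq ?_)
    field_simp
  have h4 : G V (zz η E) (del x) u = G V (zz η F) (del x) u +
      (G V (zz η E) - G V (zz η F)) (del x) u := by
    have : (G V (zz η E) - G V (zz η F)) (del x) u = G V (zz η E) (del x) u -
        G V (zz η F) (del x) u := rfl
    rw [this]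
    ring
  rw [h4]
  exact (norm_add_le _ _).trans (add_le_add_right h3 _)

/-- PTW, the error term outside of the integral -/
theorem ptw_strong (V : Site d → ℝ) (x u : Site d) (η h E a b : ℝ) (hη : 0 < η) (hh : 0 < h)
    (ha : a < E) (hb : E + h < b) :
    ENNReal.ofReal (‖G V (zz η E) (del x) u‖ ^ 2) ≤
      ENNReal.ofReal (2 / h) *
        (∫⁻ F in Set.Ioo a b, ENNReal.ofReal (‖G V (zz η F) (del x) u‖ ^ 2)) +
      ENNReal.ofReal (2 * h ^ 2 / η ^ 4) := by
  set A : ℝ≥0∞ := ENNReal.ofReal (‖G V (zz η E) (del x) u‖ ^ 2) with hA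
  set B : ℝ → ℝ≥0∞ := fun F => ENNReal.ofReal (‖G V (zz η F) (del x) u‖ ^ 2) with hB
  have h1 : ∀ F ∈ Set.Icc E (E + h), A ≤ ENNReal.ofReal 2 * B F +
      ENNReal.ofReal (2 * h ^ 2 / η ^ 4) := by
    intro F hF
    rw [hA, hB, ← ENNReal.ofReal_mul (by norm_num),
      ← ENNReal.ofReal_add (by positivity) (by positivity)]
    apply ENNReal.ofReal_le_ofReal
    have h2 := coord_sub_le V x u hη E F
    have h3 : |F - E| ≤ h := by
      rw [abs_of_nonneg (by linarith [hF.1])]
      linarith [hF.2]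
    have h4 : |F - E| / η ^ 2 ≤ h / η ^ 2 := by gcongr
    have h5 : ‖G V (zz η E) (del x) u‖ ≤ ‖G V (zz η F) (del x) u‖ + h / η ^ 2 := by linarith
    have h6 := norm_nonneg (G V (zz η E) (del x) u)
    have h7 : ‖G V (zz η E) (del x) u‖ ^ 2 ≤ (‖G V (zz η F) (del x) u‖ + h / η ^ 2) ^ 2 := by
      gcongr
    have h8 : 2 * h ^ 2 / η ^ 4 = 2 * (h / η ^ 2) ^ 2 := by
      rw [div_pow, ← pow_mul]
      ring
    rw [h8]
    nlinarith [sq_nonneg (‖G V (zz η F) (del x) u‖ - h / η ^ 2)]
  have hsub : Set.Icc E (E + h) ⊆ Set.Ioo a b := fun F hF =>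
    ⟨ha.trans_le hF.1, hF.2.trans_lt hb⟩
  have h2 : A * ENNReal.ofReal h ≤ ENNReal.ofReal 2 * (∫⁻ F in Set.Ioo a b, B F) +
      ENNReal.ofReal (2 * h ^ 2 / η ^ 4) * ENNReal.ofReal h := by
    have hvol : volume (Set.Icc E (E + h)) = ENNReal.ofReal h := by
      rw [Real.volume_Icc]
      congr 1
      ring
    calc A * ENNReal.ofReal h = ∫⁻ _F in Set.Icc E (E + h), A := by
          rw [setLIntegral_const, hvol]
      _ ≤ ∫⁻ F in Set.Icc E (E + h), (ENNReal.ofReal 2 * B F +
            ENNReal.ofReal (2 * h ^ 2 / η ^ 4)) := by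
          apply lintegral_mono_ae
          filter_upwards [ae_restrict_mem measurableSet_Icc] with F hF
          exact h1 F hF
      _ = ENNReal.ofReal 2 * (∫⁻ F in Set.Icc E (E + h), B F) +
            ENNReal.ofReal (2 * h ^ 2 / η ^ 4) * ENNReal.ofReal h := by
          rw [lintegral_add_right _ measurable_const, lintegral_const_mul' _ _ ENNReal.ofReal_ne_top,
            setLIntegral_const, hvol]
      _ ≤ _ := by
          gcongr
  have h3 : ENNReal.ofReal (1 / h) * ENNReal.ofReal h = 1 := by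
    rw [← ENNReal.ofReal_mul (by positivity), one_div_mul_cancel hh.ne', ENNReal.ofReal_one]
  calc A = ENNReal.ofReal (1 / h) * (A * ENNReal.ofReal h) := by
        rw [mul_left_comm, h3, mul_one]
    _ ≤ ENNReal.ofReal (1 / h) * (ENNReal.ofReal 2 * (∫⁻ F in Set.Ioo a b, B F) +
          ENNReal.ofReal (2 * h ^ 2 / η ^ 4) * ENNReal.ofReal h) := by
        gcongr
    _ = _ := by
        rw [mul_add, ← mul_assoc, mul_left_comm (ENNReal.ofReal (1 / h))
          (ENNReal.ofReal (2 * h ^ 2 / η ^ 4)), h3, mul_one, ← ENNReal.ofReal_mul (by positivity)]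
        congr 3
        ring

/-- PTW -/
theorem ptw : PtwStmt := by
  intro d V x u η h E a b hη hh ha hb
  refine (ptw_strong V x u η h E a b hη hh ha hb).trans ?_
  rw [lintegral_add_right _ measurable_const, setLIntegral_const, Real.volume_Ioo, mul_add]
  apply add_le_add_right
  rw [mul_left_comm, ← ENNReal.ofReal_mul (by positivity)]
  have h1 : (1 : ℝ≥0∞) ≤ ENNReal.ofReal (2 / h * (b - a)) := by
    rw [← ENNReal.ofReal_one]
    apply ENNReal.ofReal_le_ofReal
    rw [div_mul_eq_mul_div, le_div_iff₀ hh]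
    linarith
  calc ENNReal.ofReal (2 * h ^ 2 / η ^ 4) = ENNReal.ofReal (2 * h ^ 2 / η ^ 4) * 1 :=
        (mul_one _).symm
    _ ≤ _ := by gcongr

end Pool.Agent.Mob.H32
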