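import Pool.Agent.Mob.Stmts3
import Pool.Agent.Helper54_Ballistic.Fib

/-!
# Module TOT: the total mass
-/

set_option autoImplicit false

open MeasureTheory ProbabilityTheory Function

open scoped ENNReal BigOperators InnerProductSpace

noncomputable section

namespace Pool.Agent.Mob.H32

open Pool.Agent.Mob Pool.Agent.Anderson Pool.Agent.Loc Pool.Agent.Helper54.Bal

/-- TOT. -/
theorem tot : TotStmt := by
  intro d V T R J hT
  have hη : (0 : ℝ) < 1 / T := by positivity
  have h1 : ∀ E : ℝ, (∑' x : Site d, if R ≤ (sd 0 x : ℝ) then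
      ENNReal.ofReal (‖G V (zz (1 / T) E) (del 0) x‖ ^ 2 / T) else 0) ≤
      ENNReal.ofReal (1 / T) * ENNReal.ofReal (‖G V (zz (1 / T) E) (del 0)‖ ^ 2) := by
    intro E
    rw [norm_sq_enorm, ← ENNReal.tsum_mul_left]
    refine ENNReal.tsum_le_tsum fun x => ?_
    split_ifs with h
    · rw [enorm_sq_eq, ← ENNReal.ofReal_mul hη.le]
      apply ENNReal.ofReal_le_ofReal
      apply le_of_eq
      ring
    · exact zero_le
  have h2 := (isRes_G V).lintegral_le hη (del (0 : Site d))
  calc spread V T R J ≤ ∫⁻ E in J, ENNReal.ofReal (1 / T) *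
        ENNReal.ofReal (‖G V (zz (1 / T) E) (del 0)‖ ^ 2) := lintegral_mono fun E => h1 E
    _ ≤ ∫⁻ E : ℝ, ENNReal.ofReal (1 / T) *
        ENNReal.ofReal (‖G V (zz (1 / T) E) (del 0)‖ ^ 2) := setLIntegral_le_lintegral _ _
    _ = ENNReal.ofReal (1 / T) * ∫⁻ E : ℝ,
        ENNReal.ofReal (‖G V (zz (1 / T) E) (del 0)‖ ^ 2) :=
        lintegral_const_mul' _ _ ENNReal.ofReal_ne_top
    _ ≤ ENNReal.ofReal (1 / T) * ENNReal.ofReal (Real.pi / (1 / T) * ‖del (0 : Site d)‖ ^ 2) := by
        gcongr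
    _ = ENNReal.ofReal Real.pi := by
        rw [← ENNReal.ofReal_mul hη.le, norm_del]
        congr 1
        field_simp

end Pool.Agent.Mob.H32
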